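import Pool.Agent.W84.G.Defs2
import Pool.Agent.W54.GR.Pair
import Pool.Agent.W80.GC.Cls

/-!
Project G4, task PRR: good pairs, positive discriminant.
-/

set_option autoImplicit false

namespace Pool.Agent.W308.G

open Finset Filter
open Pool.Agent.H376R2.MR
open Pool.Agent.W84.G
open Pool.Agent.W78.GA (Qd nm prim gl dt ip nm_mul nm_natCast lam_sq_mul)
open Pool.Agent.W78.GR (tp fd ang Un s1 s2 s1_mul s2_mul s1_natCast s2_natCast nm_tp_int nm_pos
  tp_ne_zero tp_natCast ang_mul ang_natCast)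
open Pool.Agent.W80.GC (cl cl_iff)
open Pool.Agent.W54.GR (exists_primpart)

variable {t c : ℤ}

lemma jac_spl {D : ℤ} : ∀ n : ℕ, n ≠ 0 → (∀ p : ℕ, p.Prime → p ∣ n → jacobiSym D p = 1) →
    jacobiSym D n = 1 := by
  intro n
  induction n using Nat.strong_induction_on with
  | _ n ih =>
    intro hn h
    by_cases h1 : n = 1
    · rw [h1, jacobiSym.one_right]
    obtain ⟨p, hp, m, rfl⟩ := Nat.exists_prime_and_dvd h1
    have hm : m ≠ 0 := by rintro rfl; simp at hn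
    have : NeZero p := ⟨hp.ne_zero⟩
    have : NeZero m := ⟨hm⟩
    rw [jacobiSym.mul_right, h p hp (dvd_mul_right _ _), one_mul]
    apply ih m ?_ hm
    · intro q hq hqm
      exact h q hq (hqm.mul_left p)
    · calc m = 1 * m := (one_mul m).symm
        _ < p * m := Nat.mul_lt_mul_of_pos_right hp.one_lt (Nat.pos_of_ne_zero hm)

/-- the trace form in terms of the embeddings -/
lemma Bf_eq (hd : 4 * c < t ^ 2) (v u : Qd t c) :
    ((Bf v u : ℤ) : ℝ) = s1 v * s2 u + s2 v * s1 u := by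
  have h := Pool.Agent.W78.GR.sq_sd hd
  unfold Bf ip dt s1 s2
  push_cast
  linear_combination ((v.im : ℝ) * u.im / 2) * h

lemma Bf_pos (hd : 4 * c < t ^ 2) {v u : Qd t c} (hv : tp v) (hu : tp u) : 0 < Bf v u := by
  have h := Bf_eq hd v u
  have h1 : (0 : ℝ) < ((Bf v u : ℤ) : ℝ) := by
    rw [h]
    exact add_pos (mul_pos hv.1 hu.2) (mul_pos hv.2 hu.1)
  exact_mod_cast h1

/-- the properties of the new pair -/
lemma step {η : (Qd t c)ˣ} {Q T : ℕ} (U : Un t c η) (hQ1 : 1 ≤ Q)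
    {c₁ X : ℝ} (hc : 0 < c₁) (hX : 0 ≤ X) (hT : 1 ≤ T) {w w' y : Qd t c} {n : ℕ}
    (hn : 0 < n) (hy : prim y) (hw : w' = (n : Qd t c) * y) (h : Pr2 η Q T (c₁ * X) X (w, w')) :
    n ≤ T ∧ Gp Q T (c₁ / (T : ℝ) ^ 2 * X) X (w, y) ∧ Kp' η w ∧ Kp' η y := by
  obtain ⟨fd1, pr1, cl1, tp2, cl2, sp1, sp2, n1, n1', n2, n2', dt0, dt1, ne, an⟩ := h
  simp only at *
  have hnZ : (0 : ℤ) < n := by exact_mod_cast hn
  have hnR : (0 : ℝ) < n := by exact_mod_cast hn
  have hd := U.disc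
  have hre : w'.re = n * y.re := by rw [hw]; simp
  have him : w'.im = n * y.im := by rw [hw]; simp
  have hdt : dt w w' = n * dt w y := by
    unfold dt
    rw [hre, him]; ring
  have hy0 : dt w y ≠ 0 := by
    intro h0
    apply dt0
    rw [hdt, h0, mul_zero]
  have habs : |dt w w'| = n * |dt w y| := by
    rw [hdt, abs_mul, abs_of_pos hnZ]
  have h1 : 1 ≤ |dt w y| := Int.one_le_abs hy0
  have hnT : n ≤ T := by
    have : (n : ℤ) ≤ T := by
      rw [habs] at dt1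
      nlinarith
    exact_mod_cast this
  have hdT : |dt w y| ≤ T := by
    rw [habs] at dt1
    have h2 : (1 : ℤ) ≤ n := by exact_mod_cast hn
    nlinarith
  have hyt : tp y := by
    have h1 := tp2
    rw [hw] at h1
    obtain ⟨h2, h3⟩ := h1
    rw [s1_mul hd, s1_natCast] at h2
    rw [s2_mul hd, s2_natCast] at h3
    exact ⟨(mul_pos_iff_of_pos_left hnR).1 h2, (mul_pos_iff_of_pos_left hnR).1 h3⟩
  have hnm : nm w' = n ^ 2 * nm y := by rw [hw, nm_mul, nm_natCast]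
  have hwt : tp w := fd1.1
  have hang : ang η w' = ang η y := by
    rw [hw, ang_mul hd (tp_natCast hn) hyt, ang_natCast hn, zero_add]
  have hpi := Real.pi_pos
  have hKw : Kp' η w := by
    refine ⟨hwt, ?_⟩
    rw [abs_of_nonneg fd1.2.1]
    linarith [fd1.2.2]
  have hKy : Kp' η y := by
    refine ⟨hyt, ?_⟩
    rw [← hang]
    have h3 := abs_le.1 an
    have h4 := fd1.2.1
    have h5 := fd1.2.2
    rw [abs_le]
    constructor <;> linarith
  have hT1 : (1 : ℝ) ≤ T := by exact_mod_cast hT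
  have hnmR : (nm w' : ℝ) = (n : ℝ) ^ 2 * nm y := by rw [hnm]; push_cast; ring
  have hgl : gl w' = gl y := by
    unfold gl
    rw [hnm, lam_sq_mul hn.ne' (nm_pos hd hyt).ne']
  have hcop : IsCoprime (Q : ℤ) n := by
    obtain ⟨r, hr⟩ := (cl_iff.1 cl2).1
    rw [hre] at hr
    exact ⟨-r, y.re, by linear_combination hr⟩
  have hQim : (Q : ℤ) ∣ y.im := by
    have h3 := (cl_iff.1 cl2).2
    rw [him] at h3
    exact hcop.dvd_of_dvd_mul_left h3
  refine ⟨hnT, ⟨pr1, hy, ?_, ?_, ?_, ?_, ?_, n1', ?_, ?_, hy0, hdT, ?_, Bf_pos hd hwt hyt⟩,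
    hKw, hKy⟩
  · obtain ⟨h3, h4⟩ := cl_iff.1 cl1
    refine ⟨h4, 1, jacobiSym.one_right _, ?_⟩
    simpa using h3
  · refine ⟨hQim, n, ?_, ?_⟩
    · apply jac_spl n hn.ne'
      intro p hp hpn
      apply sp2 p hp
      rw [hnm]
      exact (hpn.trans (dvd_pow_self n two_ne_zero)).mul_right _
    · have h3 := (cl_iff.1 cl2).1
      rwa [hre] at h3
  · exact (nm_tp_int hd hwt).symm
  · exact (nm_tp_int hd hyt).symm
  · simp only
    refine le_trans ?_ n1
    apply mul_le_mul_of_nonneg_right _ hX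
    apply div_le_self hc.le
    exact one_le_pow₀ hT1
  · simp only
    have h3 : (n : ℝ) ^ 2 ≤ (T : ℝ) ^ 2 := by
      apply pow_le_pow_left₀ hnR.le
      exact_mod_cast hnT
    have h4 : c₁ * X ≤ (T : ℝ) ^ 2 * nm y := by
      calc c₁ * X ≤ nm w' := n2
        _ = (n : ℝ) ^ 2 * nm y := hnmR
        _ ≤ _ := mul_le_mul_of_nonneg_right h3 (Nat.cast_nonneg _)
    rw [div_mul_eq_mul_div, div_le_iff₀ (by positivity)]
    linarith
  · simp only
    refine le_trans ?_ n2'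
    rw [hnmR]
    have h3 : (1 : ℝ) ≤ (n : ℝ) ^ 2 := one_le_pow₀ (by exact_mod_cast hn)
    have h4 : (0 : ℝ) ≤ nm y := Nat.cast_nonneg _
    nlinarith
  · simp only
    rw [← hgl]
    exact ne

theorem prr {t c : ℤ} {η : (Qd t c)ˣ} {Q : ℕ} (U : Un t c η) (hQ1 : 1 ≤ Q)
    (hη : cl Q (η : Qd t c)) (hQ : 4 * (t ^ 2 - 4 * c) ∣ (Q : ℤ)) (h : S_RP2 η Q) :
    S_PAIRS Q (Kp' η : Qd t c → Prop) := by
  classical
  obtain ⟨T, c₁, ε, hT, hc, hε, H⟩ := h
  have hT1 : (1 : ℝ) ≤ T := by exact_mod_cast hT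
  have hT0 : (0 : ℝ) < T := by linarith
  refine ⟨T, c₁ / (T : ℝ) ^ 2, hT, by positivity, fun A P₀ hA hAD => ?_⟩
  obtain ⟨P, X₀, HX⟩ := H A (max P₀ T) hA hAD
  refine ⟨P, ε / T, max X₀ 0, by positivity, fun X hX => ?_⟩
  obtain ⟨S, hS, hSe⟩ := HX X (le_trans (le_max_left _ _) hX)
  have hX0 : 0 ≤ X := le_trans (le_max_right _ _) hX
  have hex : ∀ e : Qd t c × Qd t c, ∃ (y : Qd t c) (n : ℕ),
      e.2 ≠ 0 → (0 < n ∧ prim y ∧ e.2 = (n : Qd t c) * y) := by
    intro e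
    by_cases he : e.2 = 0
    · exact ⟨0, 0, fun h => absurd he h⟩
    · obtain ⟨y, n, hn, hy, hwy⟩ := exists_primpart he
      exact ⟨y, n, fun _ => ⟨hn, hy, hwy⟩⟩
  choose y n hyn using hex
  have hall : ∀ e ∈ S, 0 < n e ∧ e.2 = (n e : Qd t c) * y e ∧ n e ≤ T ∧
      Gp Q T (c₁ / (T : ℝ) ^ 2 * X) X (e.1, y e) ∧ Kp' η e.1 ∧ Kp' η (y e) := by
    intro e he
    obtain ⟨h1, -, -⟩ := hSe e he
    obtain ⟨h2, h3, h4⟩ := hyn e (tp_ne_zero h1.tp2)
    exact ⟨h2, h4, step U hQ1 hc hX0 hT h2 h3 h4 h1⟩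
  refine ⟨S.image (fun e => (e.1, y e)), ?_, ?_⟩
  · have hcard : S.card ≤ T * (S.image (fun e => (e.1, y e))).card := by
      apply Finset.card_le_mul_card_image
      intro f _
      have hsub : S.filter (fun e => (e.1, y e) = f) ⊆
          (Finset.Icc 1 T).image (fun k : ℕ => (f.1, (k : Qd t c) * f.2)) := by
        intro e he
        obtain ⟨he1, he2⟩ := mem_filter.1 he
        obtain ⟨h2, h4, h5, -⟩ := hall e he1
        rw [mem_image]
        refine ⟨n e, mem_Icc.2 ⟨h2, h5⟩, ?_⟩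
        rw [← he2]
        simp only
        rw [← h4]
      refine (card_le_card hsub).trans (card_image_le.trans ?_)
      rw [Nat.card_Icc]
      omega
    have h1 : (S.card : ℝ) ≤ T * ((S.image (fun e => (e.1, y e))).card : ℝ) := by
      exact_mod_cast hcard
    rw [div_mul_eq_mul_div, div_le_iff₀ hT0]
    linarith
  · intro f hf
    obtain ⟨e, he, rfl⟩ := mem_image.1 hf
    obtain ⟨h2, h4, h5, h6, h7, h8⟩ := hall e he
    obtain ⟨-, r1, r2⟩ := hSe e he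
    refine ⟨h6, h7, h8, ?_, ?_⟩
    · intro r hr hr1
      obtain ⟨p, hp, hp1, hp2, hp3, hp4⟩ := r1 r hr hr1
      exact ⟨p, hp, lt_of_le_of_lt (le_max_left _ _) hp1, hp2, hp3, hp4⟩
    · intro r hr hr1
      obtain ⟨p, hp, hp1, hp2, hp3, hp4⟩ := r2 r hr hr1
      refine ⟨p, hp, lt_of_le_of_lt (le_max_left _ _) hp1, hp2, ?_, hp4⟩
      simp only
      rw [h4, nm_mul, nm_natCast] at hp3
      rcases hp.dvd_mul.1 hp3 with h9 | h9
      · exfalso
        have h10 := Nat.le_of_dvd h2 (hp.dvd_of_dvd_pow h9)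
        have h11 := lt_of_le_of_lt (le_max_right P₀ T) hp1
        omega
      · exact h9

end Pool.Agent.W308.G
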